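import Mathlib
import Pool.Agent.X271.MotBrL
import Pool.Agent.TH216.MF.HDM

/-!
# The local strong monodromy conjecture for the motivic zeta functions of compositions

Let `Φ(x, z)` (without linear terms `z_i`) and `p_1(x), …, p_κ(x)`, `p_i(0) = 0`, `κ ≥ 1`, be polynomials
over `ℂ` which have generic coefficients at given exponents (for instance at the vertices of their
Newton polyhedra) and arbitrary further terms, and let `f(x) = Φ(x, p_1(x), …, p_κ(x))`. Under a
condition on the facets of ONE Newton polyhedron, the one of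
`F = Φ(x, z) + ∑ y_i (z_i - p_i(x))`, every pole of the local motivic zeta function of `f` at the origin (and
of the zeta functions counting only the arcs with origin in a constructible set `W`) is a root of the
LOCAL Bernstein-Sato polynomial `b_{f,0}` at the origin. More generally the same is proved for every
`f` with `f(0) = 0` such that `f + y_1 z_1 + ⋯ + y_κ z_κ` becomes a polynomial with generic coefficients by
an automorphism of the polynomial ring which fixes the origin.

Such `f` (for instance `x ^ u ∏ p_i ^ (e_i)`, sums of such products, iterated compositions) are in general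
degenerate with respect to their Newton polyhedra in all coordinates, not reduced, and their
singularities are not isolated.

Method. The zeta function of `f` is an explicit combination of the ones of `F` and `F + y z`; no
resolution is used, and no division in the Grothendieck ring. For polynomials with generic coefficients
the factor `1 - 𝕃⁻¹ T` of the strict transform is separated; functional equations over the formal
power series rings are used, and the automorphism of the formal power series ring in `x, y, z`. The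
normal fan of `F + y z` is computed: its rays are `(a, N_a, 0)` and `(a, 0, N_a)`, the levels go up by
one, simplices and B1-facets in a common direction are preserved, and the non-B1 simplices, which
become B1, are treated with the functional equation of `F` itself.
-/

set_option autoImplicit false

namespace Pool.Agent.Results.MP_b07157_ag.GenericCompositionsLocal

open MvPolynomial Pool.Agent.W428.MOT Pool.Agent.X271.MD Pool.Agent.TH216.HD
open Pool.Agent.W375.MG (zetaOrd IsPole good_units)

/-- The local strong monodromy conjecture for `f` at the origin: every pole of the motivic zeta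
function `zetaOrd f W = 𝕃 ^ (- n) ∑_l [{φ : φ(0) ∈ W, ord f(φ) = l}] (𝕃 ^ (- n) T) ^ l` of the arcs with
origin in `W`, for every constructible set `W` (`W = {0}`, which is constructible, gives the local motivic
zeta function of `f` at the origin), is a root of every polynomial `b` with
`b(s) f ^ s = P(s) f ^ (s + 1)` for a differential operator `P(s)` with formal power series at the
origin as coefficients, polynomial in `s` (`IsLocalBFunction`), in particular of the local
Bernstein-Sato polynomial `b_{f,0}` (the monic one of least degree of these polynomials, for convergent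
power series). -/
def StrongL {n : ℕ} (f : MvPolynomial (Fin n) ℂ) : Prop :=
  Constr ({0} : Set (Pt ℂ (Fin n))) ∧
  ∀ W : Set (Pt ℂ (Fin n)), Constr W → ∀ s₀ : ℚ, IsPole (zetaOrd f W) s₀ →
    ∀ b : Polynomial ℂ, Pool.Agent.H628R4.TP.IsLocalBFunction f b → b.eval (s₀ : ℂ) = 0

/-- **The local strong monodromy conjecture (Q2) for the motivic zeta functions of stably generic
polynomials and of compositions with generic coefficients.**

`InPoly v w`: `w` is in the Newton polyhedron `conv {v j} + ℝ_{≥ 0} ^ N`. `IsRay v a`: `a` spans a ray of the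
normal fan of this polyhedron; `ordA v a = N_a = min_j ⟨a, v j⟩`; `lev v a = |a| / N_a`.

`HypCL v h`: for every ray `a` with `N_a > 0` one of the following holds:
* `|a| / N_a = |a'| / N_{a'}` for some `a' ∈ ℕ ^ N` with `N_{a'} > 0` and `NonB1 v True a'`: there is a set
  `J` of `#{i | a' i ≠ 0}` elements with `⟨a', v j⟩ = N_{a'}` for `j ∈ J` such that the vectors
  `(v j i)_{a' i ≠ 0}`, `j ∈ J`, are linearly independent, such that no variable `x_i` with
  `a' i ≠ 0` occurs in exactly one of the monomials `x ^ (v j)`, `j ∈ J`, and there with exponent `1`,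
  and such that (a condition only if some `a' i = 0`) for all `l` with `⟨a', v l⟩ = N_{a'}`, if `v l`
  agrees with `∑_{j ∈ J} c_j (v j)` in the coordinates `i` with `a' i ≠ 0`, then
  `∑_j c_j s(v j) ≤ s(v l)`, `s(w) = ∑_{a' i = 0} w_i`;
* `LocC v h σ`, `σ = |a| / N_a`: there is a variable `x_i` such that every ray `a'` with `N_{a'} > 0` and
  `|a'| / N_{a'} = σ` is a simplex (`Simp v h a'`: the vectors `(v j i)_{a' i ≠ 0}`, for the `j` with
  `⟨a', v j⟩ = N_{a'}`, are linearly independent, and the exponents of `h` in this face are in the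
  convex hull of the `v j`) or B1 in the direction `i` (`B1Dir v h i a'`: `a' i ≠ 0`, and exactly one of
  the monomials of `v` and `h` of minimal `a'`-weight is divisible by `x_i`; it is some `x ^ (v j0)` with
  `v j0 i = 1`).

First part (stably generic polynomials). Let the `v j ≠ 0` be different, let the exponents of `h` be
in the Newton polyhedron of the `v j`, and let `HypCL v h` hold. There is `g ≠ 0` such that for all
coefficients `c_j ∈ ℂ` with `g(c) ≠ 0`: if `f ≠ 0`, `f(0) = 0`, and `φ` is an automorphism of `ℂ[x, y, z]`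
which fixes the origin, with `φ(f + ∑_{i ≤ κ} y_i z_i) = ∑_j c_j X ^ (v j) + h`, and there is no facet with
`|a| = N_a > 0`, then `StrongL f`.

Second part (compositions). Let exponents `m_j` of monomials in `x_1, …, x_n, z_1, …, z_κ` be given,
`j = 1, …, r`, in groups `π j ∈ {0, …, κ}`, `κ ≥ 1`, different in each group, nonzero in the group
`0`, and polynomials `H_0, …, H_κ` over `ℂ`, where the exponents of `H_i` are in the Newton polyhedron
of the `m_j` with `π j = i` or `π j = 0` (`InPolyG π m i`). For `a ∈ ℂ ^ r` let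
`tup π m a H i = ∑_{π j = i} a_j X ^ (m_j) + H_i`. `exps π m` are the exponents `m_j`, `π j = 0`, and
`y_i m_j`, `π j = i`, of `Φ + ∑ y_i l_i`, and `sumH H = H_0 + ∑ y_i H_i`. If `HypCL (exps π m) (sumH H)` holds
then there is `g ≠ 0` such that for all `a ∈ ℂ ^ r` with `g(a) ≠ 0`: let `Φ = tup π m a H 0` and
`tup π m a H i = c_i z_i - p_i(x)`, `c_i ≠ 0`, `p_i(0) = 0`, for `i = 1, …, κ`, and let the
coefficients of `z_1, …, z_κ` in `Φ` be zero; if `f(x) = Φ(x, p_1(x) / c_1, …, p_κ(x) / c_κ)` is not
zero, then `StrongL f`. -/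
theorem result {n κ r : ℕ} (hr : 0 < r) :
    (∀ v : Fin r → Fin (n + (κ + κ)) → ℕ, Function.Injective v → (∀ j, v j ≠ 0) →
      ∀ h : MvPolynomial (Fin (n + (κ + κ))) ℂ, (∀ w ∈ h.support, InPoly v w) → HypCL v h →
      ∃ g : MvPolynomial (Fin r) ℂ, g ≠ 0 ∧ ∀ c : Fin r → ℂ, eval c g ≠ 0 →
      ∀ f : MvPolynomial (Fin n) ℂ, f ≠ 0 → constantCoeff f = 0 →
      ∀ φ : MvPolynomial (Fin (n + (κ + κ))) ℂ ≃ₐ[ℂ] MvPolynomial (Fin (n + (κ + κ))) ℂ,
      (∀ i, constantCoeff (φ (X i)) = 0) →
      φ (stab f κ) = (∑ j, C (c j) * ∏ i, X i ^ v j i) + h →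
      (∀ a : Fin (n + (κ + κ)) → ℕ, IsRay v a → 0 < ordA v a → ∑ i, a i ≠ ordA v a) →
      StrongL f) ∧
    (0 < κ → ∀ (π : Fin r → Fin (κ + 1)) (m : Fin r → Fin (n + κ) → ℕ),
      (∀ j j', π j = π j' → m j = m j' → j = j') → (∀ j, π j = 0 → m j ≠ 0) →
      ∀ H : Fin (κ + 1) → MvPolynomial (Fin (n + κ)) ℂ,
      (∀ i, ∀ w ∈ (H i).support, InPolyG π m i w) → HypCL (exps π m) (sumH H) →
      ∃ g : MvPolynomial (Fin r) ℂ, g ≠ 0 ∧ ∀ a : Fin r → ℂ, eval a g ≠ 0 →
      ∀ (c : Fin κ → ℂ) (p : Fin κ → MvPolynomial (Fin n) ℂ), (∀ i, c i ≠ 0) →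
      (∀ i, constantCoeff (p i) = 0) →
      (∀ i : Fin κ, tup π m a H i.succ = C (c i) * X (Fin.natAdd n i) -
        rename (Fin.castAdd κ) (p i)) →
      (∀ i : Fin κ, coeff (Finsupp.single (Fin.natAdd n i) 1) (tup π m a H 0) = 0) →
      ∀ f : MvPolynomial (Fin n) ℂ,
      f = aeval (Fin.append X fun i => C (c i)⁻¹ * p i) (tup π m a H 0) → f ≠ 0 →
      StrongL f) := by
  have hid : ∀ f : MvPolynomial (Fin n) ℂ, map (algebraMap ℂ ℂ) f = f := by
    intro f
    rw [Algebra.algebraMap_self, MvPolynomial.map_id]
  have key : ∀ (f : MvPolynomial (Fin n) ℂ) (S : Finset (ℤ × ℤ)), (∀ p ∈ S, 0 < p.2 ∧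
      ∀ b : Polynomial ℂ, Pool.Agent.H628R4.TP.IsLocalBFunction (map (algebraMap ℂ ℂ) f) b →
        b.eval ((p.1 : ℂ) / p.2) = 0) →
      (∀ (K : Type) [Field K] [Algebra ℂ K] (W : Set (Pt K (Fin n)))
        (E : Set (AlgebraicClosure K)), Constr W → Pool.Agent.W375.MG.Good E →
        Pool.Agent.W375.MG.zetaG (map (algebraMap ℂ K) f) W E ∈ ratRing K S) → StrongL f := by
    refine fun f S hS hz => ⟨constr_zero, ?_⟩
    intro W hW s₀ hs b hb
    have h2 := hz ℂ W {a | a ≠ 0} hW good_units
    rw [hid] at h2
    obtain ⟨p, hp, rfl⟩ := Pool.Agent.W425.GN.pole_in _ W S (fun p hp => (hS p hp).1) h2 s₀ hs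
    have h1 := (hS p hp).2 b (by rw [hid]; exact hb)
    push_cast
    exact h1
  refine ⟨fun v hv hv0 h hh hC => ?_, fun hκ π m hinj hm H hH hC => ?_⟩
  · obtain ⟨g, hg, hgc⟩ := stableL hr v hv hv0 h hh hC
    refine ⟨g, hg, fun c hc f hf hf0 φ hφ0 hφ h1 => ?_⟩
    obtain ⟨S, hS, hz⟩ := hgc c hc f hf hf0 φ hφ0 hφ h1
    exact key f S hS hz
  · obtain ⟨g, hg, hgc⟩ := compsL hr hκ π m hinj hm H hH hC
    refine ⟨g, hg, fun a ha c p hc hp0 hl hlin f hff hf => ?_⟩
    obtain ⟨S, hS, hz⟩ := hgc a ha c p hc hp0 hl hlin f hff hf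
    exact key f S (fun p hp => (hS p hp).2) hz

end Pool.Agent.Results.MP_b07157_ag.GenericCompositionsLocal
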