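import Mathlib
import Pool.Agent.X271.RefThm

/-!
# The strong monodromy conjecture for motivic zeta functions: reduction to cubics

We prove that the strong monodromy conjecture for the poles of the global motivic zeta functions of
complex polynomials, with the refinement that the factor `1 - 𝕃⁻¹ T` of the smooth points is
separated, for all polynomials (all degrees, all numbers of variables) is EQUIVALENT to the same
statement for the cubic polynomials `x_0 + ∑_j t_j q_j(x)` with `q_j` of degree at most two, that is, for
coordinate functions restricted to intersections of quadrics. It implies the conjecture Q1.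

Refined property of `f`: every pole of `(1 - 𝕃⁻¹ T) Z_f(T)` is a root of `b_f(s) / (s + 1)`; so `-1`, if
it is a multiple pole of `Z_f(T)`, is a multiple root of `b_f`. The separation of the factor is needed
because `K₀(Var)[𝕃⁻¹]` is not a domain: a pole cannot be moved by division.

Method. Every polynomial `f` becomes such a cubic by adding products `y_i z_i` of new variables and
an automorphism of the polynomial ring (moves `F ↦ F + (y - a)(z + e)`). The zeta function of `f` is
an explicit combination of those of `f + y z` and of `f + y z + y' z'`, without resolution of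
singularities and without division; and a functional equation of `f` with `b(s) = (s + 1) c(s)`
gives one of `f + y z` with `(s + 1) c(s + 1)`.
-/

set_option autoImplicit false

namespace Pool.Agent.Results.MP_b07157_ag.ReductionToCubics

open MvPolynomial Pool.Agent.W428.MOT Pool.Agent.X271.RD
open Pool.Agent.W375.MG (zetaOrd IsPole)

/-- The strong monodromy conjecture (Q1) for `f`: every pole of the global motivic zeta function
`zetaOrd f univ = 𝕃 ^ (- n) ∑_l [{φ : ord f(φ) = l}] (𝕃 ^ (- n) T) ^ l` is a root of
every polynomial `b` with `b(s) f ^ s = P(s) f ^ (s + 1)`, `P(s)` a differential operator in the Weyl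
algebra, polynomial in `s` (`IsBFunction`), in particular of the Bernstein-Sato polynomial of `f`. -/
def Strong {n : ℕ} (f : MvPolynomial (Fin n) ℂ) : Prop :=
  ∀ s₀ : ℚ, IsPole (zetaOrd f Set.univ) s₀ →
    ∀ b : Polynomial ℂ, Pool.Agent.H628R4.TP.IsBFunction f b → b.eval (s₀ : ℂ) = 0

/-- The refined property of `f`: every pole of `(1 - 𝕃⁻¹ T) Z_f(T)`, `Z_f = zetaOrd f univ`, is a root of
`b_f(s) / (s + 1)` (`RedRoot`: a root of every `c` for which `(s + 1) c(s)` satisfies a functional
equation for `f`); and, if `A` holds, the same for the zeta functions `zetaOrd f W` of the arcs with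
origin in `W`, for all constructible sets `W`. -/
def Refined (A : Prop) {n : ℕ} (f : MvPolynomial (Fin n) ℂ) : Prop :=
  ∀ W : Set (Pt ℂ (Fin n)), Constr W → (A ∨ W = Set.univ) → ∀ s₀ : ℚ,
    IsPole (fac ℂ * zetaOrd f W) s₀ → RedRoot f (s₀ : ℂ)

/-- **The strong monodromy conjecture (Q1) for motivic zeta functions: transfer and reduction to
cubics.**

`A = False`: the global zeta function; `A = True`: also all constructible sets of origins.

* Part 1. If a non-constant polynomial `f` has the refined property, then `Strong f`.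
* Part 2 (transfer). Let `F₁` be `f(x) + ∑_{i ≤ κ} y_i z_i` (`stab f κ`) and `F₂` be
  `f(x) + ∑_{i ≤ κ + 1} y_i z_i` after automorphisms of the polynomial rings. If `F₁` and `F₂` have the
  refined property, then the non-constant polynomial `f` has it.
* Part 3. The refined property of all non-constant polynomials is equivalent to the refined
  property of the cubics `cubic q = x_0 + ∑_j t_j q_j(x)`, `x = (x_0, …, x_n)`, `deg q_j ≤ 2`. -/
theorem result (A : Prop) :
    (∀ (n : ℕ) (f : MvPolynomial (Fin n) ℂ), f.totalDegree ≠ 0 → Refined A f → Strong f) ∧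
    (∀ (n κ : ℕ) (f : MvPolynomial (Fin n) ℂ), f.totalDegree ≠ 0 →
      ∀ (Φ₁ : MvPolynomial (Fin (n + (κ + κ))) ℂ ≃ₐ[ℂ] MvPolynomial (Fin (n + (κ + κ))) ℂ)
        (Φ₂ : MvPolynomial (Fin (n + (κ + 1 + (κ + 1)))) ℂ ≃ₐ[ℂ]
          MvPolynomial (Fin (n + (κ + 1 + (κ + 1)))) ℂ),
      Refined A (Φ₁ (stab f κ)) → Refined A (Φ₂ (stab f (κ + 1))) → Refined A f) ∧
    ((∀ (n : ℕ) (f : MvPolynomial (Fin n) ℂ), f.totalDegree ≠ 0 → Refined A f) ↔
      ∀ (n l : ℕ) (q : Fin l → MvPolynomial (Fin (n + 1)) ℂ), (∀ j, (q j).totalDegree ≤ 2) →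
        Refined A (cubic q)) := by
  classical
  have hid : ∀ (n : ℕ) (f : MvPolynomial (Fin n) ℂ), map (algebraMap ℂ ℂ) f = f := by
    intro n f
    rw [Algebra.algebraMap_self, MvPolynomial.map_id]
  refine ⟨fun n f hf h s₀ hs b hb => ?_, fun n κ f hf Φ₁ Φ₂ h1 h2 => ?_, ?_⟩
  · have h3 : Constr (Set.univ : Set (Pt ℂ (Fin n))) := Pool.Agent.W428.MOT.Constr.univ
    have h4 := Pool.Agent.X271.RC.root_of_red hf (b := b) (by rw [hid]; exact hb)
    by_cases h5 : s₀ = -1
    · rw [h5]
      push_cast
      exact h4.1
    · refine h4.2 _ (h Set.univ h3 (Or.inr rfl) s₀ fun h6 => hs ?_)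
      rw [Pool.Agent.X271.RC.pole_iff] at h6
      have h7 := Pool.Agent.Y229.MS.zeta_of_fst _ _ _ _ h6
      rw [Pool.Agent.W375.MG.zetaOrd_eq]
      refine (ratRing ℂ _).mul_mem (Pool.Agent.W63.MTFin.C_mem _ _)
        (Pool.Agent.W375.MG.ratRing_mono ?_ h7)
      rintro p (rfl | hp)
      · refine ⟨by norm_num, fun h8 => h5 ?_⟩
        rw [← h8]
        norm_num
      · exact hp
  · exact Pool.Agent.X271.RC.transfer (fun n f => Pool.Agent.X271.RC.RefP A n f)
      (fun a b Φ hab g hg => Pool.Agent.X271.RC.refP_iso hab Φ hg)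
      (fun n f hf h1 h2 => Pool.Agent.X271.RC.refP_desc hf h1 h2) f hf κ Φ₁ Φ₂ h1 h2
  · exact Pool.Agent.X271.RC.refP_cubic

end Pool.Agent.Results.MP_b07157_ag.ReductionToCubics
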