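import Mathlib
import Pool.Agent.X271.LocThm

/-!
# The local strong monodromy conjecture for motivic zeta functions: reduction to cubics

We prove that the local strong monodromy conjecture for the poles of the local motivic zeta functions
of complex polynomials, with the refinement that the factor `1 - 𝕃⁻¹ T` of the smooth points is
separated, for all polynomials (all degrees, all numbers of variables) is EQUIVALENT to the same
statement for the cubic polynomials `x_0 + ∑_j t_j q_j(x)` with `q_j` of degree at most two, at their zeros.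
It implies the conjecture Q2.

Refined property of `f` at a zero `P`: every pole of `(1 - 𝕃⁻¹ T) Z_{f,P}(T)` is a root of
`b_{f,P}(s) / (s + 1)`; so `-1`, if it is a multiple pole of `Z_{f,P}(T)`, is a multiple root of
`b_{f,P}`. The separation of the factor is needed because `K₀(Var)[𝕃⁻¹]` is not a domain: a pole cannot
be moved by division.

Method. Every polynomial `f` becomes such a cubic by adding products `y_i z_i` of new variables and
an automorphism of the polynomial ring (moves `F ↦ F + (y - a)(z + e)`); the zero `(P, 0)` goes to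
a zero of the cubic. The jets of `f + y z` with origin in `(P, 0, 0)` are counted in the Grothendieck
ring: the local zeta function of `f` at `P` is an explicit combination of those of `f + y z` at
`(P, 0, 0)` and of `f + y z + y' z'` at `(P, 0, 0, 0, 0)`, without resolution of singularities and without
division; and a local functional equation of `f` at `P` with `b(s) = (s + 1) c(s)` gives one of
`f + y z` at `(P, 0, 0)` with `(s + 1) c(s + 1)`.
-/

set_option autoImplicit false

namespace Pool.Agent.Results.MP_b07157_ag.ReductionToCubicsLocal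

open MvPolynomial Pool.Agent.W428.MOT Pool.Agent.X271.RD
open Pool.Agent.W375.MG (zetaOrd IsPole)

/-- The local strong monodromy conjecture (Q2) for `f` at the point `P`: every pole of the local
motivic zeta function `zetaOrd f {P} = 𝕃 ^ (- n) ∑_l [{φ : φ(0) = P, ord f(φ) = l}] (𝕃 ^ (- n) T) ^ l` is
a root of every polynomial `b` with `b(s) f ^ s = P(s) f ^ (s + 1)` for a differential operator `P(s)` with
formal power series at the point `P` as coefficients, polynomial in `s` (`IsLocalBFunction`, applied to
`f(x + P) = trans P f` at the origin), in particular of the local Bernstein-Sato polynomial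
`b_{f,P}`. Here `pt ℂ P` is the point `P` (over the algebraic closure of `ℂ`). -/
def StrongAt {n : ℕ} (f : MvPolynomial (Fin n) ℂ) (P : Fin n → ℂ) : Prop :=
  ∀ s₀ : ℚ, IsPole (zetaOrd f {pt ℂ P}) s₀ →
    ∀ b : Polynomial ℂ, Pool.Agent.H628R4.TP.IsLocalBFunction (trans P f) b →
      b.eval (s₀ : ℂ) = 0

/-- The refined property of `f` at the point `P`: every pole of `(1 - 𝕃⁻¹ T) Z_{f,P}(T)`,
`Z_{f,P} = zetaOrd f {P}`, is a root of `b_{f,P}(s) / (s + 1)` (`RedRootL`: a root of every `c` for which
`(s + 1) c(s)` satisfies a local functional equation for `f` at `P`). -/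
def Refined {n : ℕ} (f : MvPolynomial (Fin n) ℂ) (P : Fin n → ℂ) : Prop :=
  ∀ s₀ : ℚ, IsPole (fac ℂ * zetaOrd f {pt ℂ P}) s₀ → RedRootL f P (s₀ : ℂ)

/-- **The local strong monodromy conjecture (Q2) for motivic zeta functions: transfer and reduction to
cubics.** (For the origin take `P = 0`; and the property of `f` at `P` is the property of `f(x + P)` at
the origin.)

* Part 1. If `f ≠ 0` has the refined property at a zero `P`, then `StrongAt f P`.
* Part 2 (transfer). Let `F₁` be `f(x) + ∑_{i ≤ κ} y_i z_i` (`stab f κ`) and `F₂` be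
  `f(x) + ∑_{i ≤ κ + 1} y_i z_i` after automorphisms of the polynomial rings. If `F₁` and `F₂` have the
  refined property at all their zeros, then `f ≠ 0` has it at all its zeros.
* Part 3. The refined property of all polynomials `f ≠ 0` at all their zeros is equivalent to the refined
  property of the cubics `cubic q = x_0 + ∑_j t_j q_j(x)`, `x = (x_0, …, x_n)`, `deg q_j ≤ 2`, at
  all their zeros. -/
theorem result :
    (∀ (n : ℕ) (f : MvPolynomial (Fin n) ℂ) (P : Fin n → ℂ), f ≠ 0 → eval P f = 0 →
      Refined f P → StrongAt f P) ∧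
    (∀ (n κ : ℕ) (f : MvPolynomial (Fin n) ℂ), f ≠ 0 →
      ∀ (Φ₁ : MvPolynomial (Fin (n + (κ + κ))) ℂ ≃ₐ[ℂ] MvPolynomial (Fin (n + (κ + κ))) ℂ)
        (Φ₂ : MvPolynomial (Fin (n + (κ + 1 + (κ + 1)))) ℂ ≃ₐ[ℂ]
          MvPolynomial (Fin (n + (κ + 1 + (κ + 1)))) ℂ),
      (∀ P, eval P (Φ₁ (stab f κ)) = 0 → Refined (Φ₁ (stab f κ)) P) →
      (∀ P, eval P (Φ₂ (stab f (κ + 1))) = 0 → Refined (Φ₂ (stab f (κ + 1))) P) →
      ∀ P, eval P f = 0 → Refined f P) ∧
    ((∀ (n : ℕ) (f : MvPolynomial (Fin n) ℂ) (P : Fin n → ℂ), f ≠ 0 → eval P f = 0 →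
      Refined f P) ↔
      ∀ (n l : ℕ) (q : Fin l → MvPolynomial (Fin (n + 1)) ℂ), (∀ j, (q j).totalDegree ≤ 2) →
        ∀ P : Fin (n + 1 + l) → ℂ, eval P (cubic q) = 0 → Refined (cubic q) P) := by
  classical
  have hid : ∀ (n : ℕ) (f : MvPolynomial (Fin n) ℂ), map (algebraMap ℂ ℂ) f = f := by
    intro n f
    rw [Algebra.algebraMap_self, MvPolynomial.map_id]
  refine ⟨fun n f P hf hP h s₀ hs b hb => ?_, fun n κ f hf Φ₁ Φ₂ h1 h2 => ?_, ?_⟩
  · have h4 := Pool.Agent.X271.LR.rootL_of_red hf hP (b := b) (by rw [hid]; exact hb)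
    by_cases h5 : s₀ = -1
    · rw [h5]
      push_cast
      exact h4.1
    · refine h4.2 _ (h s₀ fun h6 => hs ?_)
      rw [Pool.Agent.X271.RC.pole_iff] at h6
      have h7 := Pool.Agent.Y229.MS.zeta_of_fst _ _ _ _ h6
      rw [Pool.Agent.W375.MG.zetaOrd_eq]
      refine (ratRing ℂ _).mul_mem (Pool.Agent.W63.MTFin.C_mem _ _)
        (Pool.Agent.W375.MG.ratRing_mono ?_ h7)
      rintro p (rfl | hp)
      · refine ⟨by norm_num, fun h8 => h5 ?_⟩
        rw [← h8]
        norm_num
      · exact hp
  · exact Pool.Agent.X271.LR.refP_transfer f hf κ Φ₁ Φ₂ h1 h2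
  · exact Pool.Agent.X271.LR.refP_cubic

end Pool.Agent.Results.MP_b07157_ag.ReductionToCubicsLocal
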